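import Pool.Agent.Lib.MP_144d21_co.X2.H98.Algb

/-!
# X2, module CASEA: a minimal side with at least two vertices (helper68)
-/

set_option autoImplicit false

namespace Pool.Agent.Xu.X2.H68

open Finset Pool.Agent.Xu Pool.Agent.Xu.X2

section

set_option linter.unusedSectionVars false

variable {V : Type} [Fintype V] [DecidableEq V]

theorem exists_t {T : Finset V} (h : T.card = 3) :
    ∃ t : Fin 3 → V, Function.Injective t ∧ tS t = T := by
  classical
  let e := T.equivFinOfCardEq h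
  refine ⟨fun i => (e.symm i : V), fun i j hij => e.symm.injective (Subtype.ext hij), ?_⟩
  ext x
  unfold tS
  rw [mem_image]
  constructor
  · rintro ⟨i, -, rfl⟩
    exact (e.symm i).2
  · intro hx
    exact ⟨e ⟨x, hx⟩, mem_univ _, by simp⟩

theorem cards {G : SimpleGraph V} {S T P Q : Finset V} (h : Cut3 G S T P Q) :
    S.card = 3 + P.card + Q.card ∧ (T ∪ P).card = 3 + P.card ∧ (T ∪ Q).card = 3 + Q.card := by
  have h1 : (T ∪ P).card = 3 + P.card := by rw [card_union_of_disjoint h.tp, h.card]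
  have h2 : (T ∪ Q).card = 3 + Q.card := by rw [card_union_of_disjoint h.tq, h.card]
  refine ⟨?_, h1, h2⟩
  rw [← h.un, card_union_of_disjoint (disjoint_union_left.2 ⟨h.tq, h.pq⟩), h1]

theorem tE_le {t : Fin 3 → V} {T : Finset V} (hT : tS t = T) (I : Finset (Fin 3)) :
    tE t I ≤ cl T := by
  intro a b hab
  obtain ⟨hne, i, -, h⟩ := hab
  have hm : ∀ j, t j ∈ T := fun j => by
    rw [← hT]; exact mem_image_of_mem t (mem_univ j)
  rcases h with ⟨rfl, rfl⟩ | ⟨rfl, rfl⟩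
  · exact ⟨hne, hm _, hm _⟩
  · exact ⟨hne, hm _, hm _⟩

theorem tE_empty (t : Fin 3 → V) : tE t ∅ = ⊥ := by
  ext a b
  simp [tE]

/-- pairs which are present need not be added -/
theorem sup_tE_congr {G : SimpleGraph V} {t : Fin 3 → V} {I J : Finset (Fin 3)}
    (hIJ : ∀ i, (i ∈ I ↔ i ∈ J) ∨ G.Adj (t (i + 1)) (t (i + 2))) :
    G ⊔ tE t I = G ⊔ tE t J := by
  have key : ∀ I J : Finset (Fin 3),
      (∀ i, (i ∈ I ↔ i ∈ J) ∨ G.Adj (t (i + 1)) (t (i + 2))) → G ⊔ tE t I ≤ G ⊔ tE t J := by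
    intro I J hIJ a b hab
    rcases hab with hab | ⟨hne, i, hi, h⟩
    · exact Or.inl hab
    · rcases hIJ i with h1 | h1
      · exact Or.inr ⟨hne, i, h1.1 hi, h⟩
      · rcases h with ⟨rfl, rfl⟩ | ⟨rfl, rfl⟩
        · exact Or.inl h1
        · exact Or.inl h1.symm
  exact le_antisymm (key I J hIJ) (key J I fun i => (hIJ i).imp Iff.symm id)

theorem mem_mis {G : SimpleGraph V} {t : Fin 3 → V} {i : Fin 3} :
    i ∈ mis G t ↔ ¬ G.Adj (t (i + 1)) (t (i + 2)) := by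
  classical
  unfold mis
  simp

/-- a spanning side with the whole family -/
theorem side_fam (hW : WrkS) (hD : DcutS) (hKEY : KeyS) (hFAM : FamrS)
    {p : V → Fin 3 → ℝ} (hp : Gen p) {G : SimpleGraph V} {S T P Q : Finset V} {t : Fin 3 → V}
    (h3 : ThreeConn G S) (hIH : IH p G S) (hc : Cut3 G S T P Q) (ht : Function.Injective t)
    (hT : tS t = T) {n : ℕ} (hf : Fam p G S n) {I : Finset (Fin 3)}
    (hI : Inj (WW p G (T ∪ P) t) I) :
    cc n * (2 ^ ((T ∪ P).card - 3) * EE (dd p (G ⊔ cl T) (T ∪ P))) ≤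
      (bet (G ⊔ tE t I) (T ∪ P) : ℝ) := by
  have hsub : tS t ⊆ T ∪ P := by rw [hT]; exact subset_union_left
  obtain ⟨-, hW2, -⟩ := hW V p hp.1 G (T ∪ P) t ht hsub
  have hcl : Clus p (G ⊔ tE t I) (T ∪ P) T := by
    have := hW2 I hI
    rwa [hT] at this
  have h3' := hKEY V p hp.1 G (tE t I) S T P Q h3 hc (tE_le hT I) hcl
  have hf' := hFAM V p hp G (tE t I) S T P Q n hc (tE_le hT I) hcl hf
  obtain ⟨c1, c2, c3⟩ := cards hc
  have hq := hc.qn.card_pos
  have hb := hIH (G ⊔ tE t I) (T ∪ P) (Or.inl (by omega)) h3' n hf'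
  have hd := (hD V p hp.1 G S T P Q t hc ht hT).2 I
  rw [H98.inj_iff.1 hI, add_zero] at hd
  unfold FF at hb
  rwa [hd] at hb

/-- the minimal side with the three single vertices of `T` -/
theorem side_min (hE : EesS) (hM2 : Min2S)
    {p : V → Fin 3 → ℝ} {G : SimpleGraph V} {S T P Q : Finset V} {t : Fin 3 → V}
    (hIH : IH p G S) (hc : Cut3 G S T P Q) (hT : tS t = T) (hmin : MinSide G S Q)
    {I : Finset (Fin 3)} (h3' : ThreeConn (G ⊔ tE t I) (T ∪ Q)) {d : ℕ}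
    (hd : dd p (G ⊔ tE t I) (T ∪ Q) ≤ d) :
    2 ^ ((T ∪ Q).card - 3) * EE d ≤ (bet (G ⊔ tE t I) (T ∪ Q) : ℝ) := by
  have hf : Fam p (G ⊔ tE t I) (T ∪ Q) 3 := by
    refine ⟨fun k => {t k}, ?_, ?_⟩
    · intro k
      constructor
      · intro x hx
        rw [mem_singleton.1 hx, ← hT]
        exact mem_union_left _ (mem_image_of_mem t (mem_univ k))
      · intro u hu v hv
        rw [mem_singleton.1 hu, mem_singleton.1 hv, row_self]
        exact Submodule.zero_mem _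
    · intro T' P' Q' hc'
      obtain ⟨x, hx, hxT⟩ := hM2 V G (tE t I) S T P Q hc hmin (tE_le hT I) T' P' Q' hc'
      rw [← hT] at hxT
      obtain ⟨k, -, rfl⟩ := mem_image.1 hxT
      exact ⟨k, t k, hx, mem_singleton_self _⟩
  obtain ⟨c1, c2, c3⟩ := cards hc
  have hq := hc.pn.card_pos
  have hb := hIH (G ⊔ tE t I) (T ∪ Q) (Or.inl (by omega)) h3' 3 hf
  have hcc : cc 3 = 1 := by
    unfold cc
    norm_num
  rw [hcc, one_mul] at hb
  unfold FF at hb
  refine le_trans ?_ hb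
  exact mul_le_mul_of_nonneg_left (hE.2.2.1 _ _ hd) (by positivity)

end

theorem casea (hE : EesS) (_ : KnS) (hW : WrkS) (hD : DcutS) (hT1 : T1S) (hAF : AfS)
    (hKEY : KeyS) (hFAM : FamrS) (hM1 : Min1S) (hM2 : Min2S) (_ : SideS) (hAL : AlgaS) :
    CaseaS := by
  classical
  intro V _ _ p hp G S T P Q h3 hIH hc h2 hmin n hf
  obtain ⟨t, ht, hT⟩ := exists_t hc.card
  obtain ⟨c1, c2, c3⟩ := cards hc
  have hsubP : tS t ⊆ T ∪ P := by rw [hT]; exact subset_union_left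
  have hsubQ : tS t ⊆ T ∪ Q := by rw [hT]; exact subset_union_left
  obtain ⟨-, -, hWP⟩ := hW V p hp.1 G (T ∪ P) t ht hsubP
  obtain ⟨-, hWQ2, hWQ⟩ := hW V p hp.1 G (T ∪ Q) t ht hsubQ
  have hbX := hT1 V G S T P Q t h3 hc ht hT
  obtain ⟨aR1, aR2, aR3, aR4⟩ := hAF V G S T P Q t h3 hc ht hT
  obtain ⟨aL1, aL2, aL3, aL4⟩ := hAF V G S T Q P t h3 hc.symm ht hT
  obtain ⟨hdX, -⟩ := hD V p hp.1 G S T P Q t hc ht hT
  obtain ⟨-, hdL⟩ := hD V p hp.1 G S T Q P t hc.symm ht hT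
  have hE' := hE
  obtain ⟨E0, E1, E2, E3, E4, E5, E6, -, -⟩ := hE'
  set D := mis G t with hDdef
  set WR := WW p G (T ∪ P) t with hWR
  set WL := WW p G (T ∪ Q) t with hWL
  set a := dd p (G ⊔ cl T) (T ∪ P) with ha
  set b := dd p (G ⊔ cl T) (T ∪ Q) with hb
  have vR : ∀ ν ∈ WR, ∀ i, i ∉ D → ν i = 0 := by
    intro ν hν i hi
    refine hWP ν hν i ?_
    rw [hDdef, mem_mis, not_not] at hi
    exact hi
  have vL : ∀ ν ∈ WL, ∀ i, i ∉ D → ν i = 0 := by
    intro ν hν i hi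
    refine hWQ ν hν i ?_
    rw [hDdef, mem_mis, not_not] at hi
    exact hi
  obtain ⟨τ, hτ⟩ : ∃ τ : ℝ, D = univ → 0 ≤ τ ∧ (∀ i, τ ≤ ((bc G (T ∪ P) t i : ℤ) : ℝ)) ∧
      ((bet (G ⊔ tE t ∅) (T ∪ P) : ℤ) : ℝ) = ((ba G (T ∪ P) t : ℤ) : ℝ) -
        ∑ i, ((bc G (T ∪ P) t i : ℤ) : ℝ) + τ := by
    by_cases hu : D = univ
    · obtain ⟨τ, h1, h2, h3⟩ := aR2 hu
      refine ⟨τ, fun _ => ⟨by exact_mod_cast h1, fun i => by exact_mod_cast h2 i, ?_⟩⟩
      rw [tE_empty, sup_bot_eq, h3]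
      push_cast
      ring
    · exact ⟨0, fun h => absurd h hu⟩
  obtain ⟨τ', hτ'⟩ : ∃ τ : ℝ, D = univ → 0 ≤ τ ∧ (∀ i, τ ≤ ((bc G (T ∪ Q) t i : ℤ) : ℝ)) ∧
      ((bet (G ⊔ tE t ∅) (T ∪ Q) : ℤ) : ℝ) = ((ba G (T ∪ Q) t : ℤ) : ℝ) -
        ∑ i, ((bc G (T ∪ Q) t i : ℤ) : ℝ) + τ := by
    by_cases hu : D = univ
    · obtain ⟨τ, h1, h2, h3⟩ := aL2 hu
      refine ⟨τ, fun _ => ⟨by exact_mod_cast h1, fun i => by exact_mod_cast h2 i, ?_⟩⟩
      rw [tE_empty, sup_bot_eq, h3]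
      push_cast
      ring
    · exact ⟨0, fun h => absurd h hu⟩
  have hcn : 0 ≤ cc n := by unfold cc; positivity
  have hU : 0 ≤ cc n * (2 ^ ((T ∪ P).card - 3) * EE a) :=
    mul_nonneg hcn (mul_nonneg (by positivity) (E1 a).le)
  have hL1 : (0 : ℝ) ≤ 2 ^ ((T ∪ Q).card - 3) * EE (b + 1) :=
    mul_nonneg (by positivity) (E1 _).le
  have hL01 : (2 : ℝ) ^ ((T ∪ Q).card - 3) * EE (b + 1) ≤ 2 ^ ((T ∪ Q).card - 3) * EE b :=
    mul_le_mul_of_nonneg_left (E2 _ _ (Nat.le_succ b)) (by positivity)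
  obtain ⟨k0, k1, k2, k3⟩ := hAL WR WL D (ba G (T ∪ P) t : ℤ) (ba G (T ∪ Q) t : ℤ) τ τ'
    (bet G S : ℤ) (cc n * (2 ^ ((T ∪ P).card - 3) * EE a)) (2 ^ ((T ∪ Q).card - 3) * EE b)
    (2 ^ ((T ∪ Q).card - 3) * EE (b + 1)) (fun i => ((bc G (T ∪ P) t i : ℤ) : ℝ))
    (fun i => ((bc G (T ∪ Q) t i : ℤ) : ℝ)) (fun I => ((bet (G ⊔ tE t I) (T ∪ P) : ℤ) : ℝ))
    (fun I => ((bet (G ⊔ tE t I) (T ∪ Q) : ℤ) : ℝ)) vR vL
    (by rw [hbX]; push_cast; ring)
    (fun I _ hI => by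
      have := aR1 I hI
      rw [this]; push_cast; ring)
    (fun I _ hI => by
      have := aL1 I hI
      rw [this]; push_cast; ring)
    hτ hτ' (fun i => by exact_mod_cast aR3 i) (fun i => by exact_mod_cast aL3 i)
    (fun I _ => by exact_mod_cast aR4 I) (fun I _ => by exact_mod_cast aL4 I) hU hL1 hL01
    (fun I _ hI => side_fam hW hD hKEY hFAM hp h3 hIH hc ht hT hf hI)
    (fun I _ hI => by
      have hcl : Clus p (G ⊔ tE t I) (T ∪ Q) T := by
        have := hWQ2 I hI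
        rwa [hT] at this
      refine side_min hE hM2 hIH hc hT hmin
        (hKEY V p hp.1 G (tE t I) S T Q P h3 hc.symm (tE_le hT I) hcl) ?_
      rw [hdL I, H98.inj_iff.1 hI, add_zero])
    (fun i hi => by
      have n1 : ∀ i : Fin 3, i + 1 ≠ i := by decide
      have n2 : ∀ i : Fin 3, i + 2 ≠ i := by decide
      have hg : G ⊔ tE t (D.erase i) = G ⊔ tE t {i + 1, i + 2} := by
        apply sup_tE_congr
        intro j
        by_cases hj : j ∈ D
        · left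
          constructor
          · intro h
            rcases H98.other (mem_erase.1 h).1 with h1 | h1
            · rw [h1]; simp
            · rw [h1]; simp
          · intro h
            refine mem_erase.2 ⟨?_, hj⟩
            rcases mem_insert.1 h with h1 | h1
            · rw [h1]
              exact n1 i
            · rw [mem_singleton.1 h1]
              exact n2 i
        · right
          rw [hDdef, mem_mis, not_not] at hj
          exact hj
      show _ ≤ ((bet (G ⊔ tE t (D.erase i)) (T ∪ Q) : ℤ) : ℝ)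
      refine side_min hE hM2 hIH hc hT hmin ?_ ?_
      · rw [hg]
        exact hM1 V G S T P Q t h3 hc h2 hmin ht hT i
      · rw [hdL (D.erase i)]
        have h5 := H98.dfc_insert WL (D.erase i) i
        rw [insert_erase hi] at h5
        have h6 : Inj WL D := by
          intro ν hν h0
          funext j
          by_cases hj : j ∈ D
          · exact h0 j hj
          · exact vL ν hν j hj
        rw [H98.inj_iff.1 h6] at h5
        omega)
  have hle3 : dfc (WR ⊓ WL) ∅ ≤ 3 := by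
    rw [H98.finrank_W]
    refine (Submodule.finrank_le _).trans ?_
    simp
  have hpow : (2 : ℝ) ^ (S.card - 3) = 2 ^ ((T ∪ P).card - 3) * 2 ^ ((T ∪ Q).card - 3) := by
    rw [← pow_add]
    congr 1
    omega
  unfold FF
  rw [hdX, hpow]
  set x : ℝ := 2 ^ ((T ∪ P).card - 3) with hx
  set y : ℝ := 2 ^ ((T ∪ Q).card - 3) with hy
  have hx0 : 0 ≤ x := by positivity
  have hy0 : 0 ≤ y := by positivity
  have hcxy : 0 ≤ cc n * (x * y) := mul_nonneg hcn (mul_nonneg hx0 hy0)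
  -- it is enough to compare the potentials
  have fin : ∀ e : ℝ, EE (a + b + dfc (WR ⊓ WL) ∅) ≤ EE a * e →
      cc n * (x * EE a) * (y * e) ≤ ((bet G S : ℤ) : ℝ) →
      cc n * (x * y * EE (a + b + dfc (WR ⊓ WL) ∅)) ≤ ((bet G S : ℤ) : ℝ) := by
    intro e h1 h2
    refine le_trans ?_ h2
    have h4 := mul_le_mul_of_nonneg_left h1 hcxy
    calc cc n * (x * y * EE (a + b + dfc (WR ⊓ WL) ∅))
        = cc n * (x * y) * EE (a + b + dfc (WR ⊓ WL) ∅) := by ring
      _ ≤ cc n * (x * y) * (EE a * e) := h4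
      _ = cc n * (x * EE a) * (y * e) := by ring
  interval_cases hw : dfc (WR ⊓ WL) ∅
  · refine fin (EE b) ?_ (k0 rfl)
    exact E6 a b
  · refine fin (EE (b + 1)) ?_ (k1 rfl)
    have := E6 a (b + 1)
    rwa [← add_assoc] at this
  · refine fin (EE (b + 2)) ?_ ?_
    · have := E6 a (b + 2)
      rwa [← add_assoc] at this
    · refine le_trans ?_ (k2 rfl)
      refine mul_le_mul_of_nonneg_left (le_min ?_ ?_) hU
      · exact mul_le_mul_of_nonneg_left (E2 _ _ (by omega)) hy0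
      · have h7 := E5 b
        have h8 := E1 b
        have h9 : EE (b + 2) ≤ EE b / 2 := by linarith
        calc y * EE (b + 2) ≤ y * (EE b / 2) := mul_le_mul_of_nonneg_left h9 hy0
          _ = y * EE b / 2 := by ring
  · refine fin (EE (b + 3)) ?_ ?_
    · have := E6 a (b + 3)
      rwa [← add_assoc] at this
    · refine le_trans ?_ (k3 rfl)
      refine mul_le_mul_of_nonneg_left ?_ hU
      have h7 := E5 (b + 1)
      have h8 := E1 (b + 1)
      have h9 : EE (b + 3) ≤ EE (b + 1) / 2 := by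
        have : b + 1 + 2 = b + 3 := by ring
        rw [this] at h7
        linarith
      calc y * EE (b + 3) ≤ y * (EE (b + 1) / 2) := mul_le_mul_of_nonneg_left h9 hy0
        _ = y * EE (b + 1) / 2 := by ring

end Pool.Agent.Xu.X2.H68
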